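import Mathlib
import Pool.Agent.Results.MP_e70d00_co.NoAbsoluteConstant
import Pool.Agent.Y906.SD.Main

/-!
# No stability for Boolean functions of degree `t` on `S_n`, for every `t ≥ 2`

For every `t ≥ 2` and every large `n` there is a family `A` of permutations whose indicator lies in
`U_t`, and which is as far as possible from all unions of `t`-cosets: the relative distance is
`1 - O(t / n)`. So the statement of the question fails for every `t ≥ 2` and every constant, even a
constant that depends on `t`, and even if the bound `C₀ (ε + 1/n)` is replaced by any other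
bound that tends to `0` as `ε` tends to `0` and `n` tends to infinity.

The family: the first three values are all in the lower half of the range or all in the upper half,
and the next `t - 2` values are in the lower half.
-/

set_option autoImplicit false

namespace Pool.Agent.Results.MP_e70d00_co.EveryDegree

open Finset hiding expect
open Equiv
open Pool.Agent.Results.MP_e70d00_co.NoAbsoluteConstant (tCoset ind U expect IsProj
  IsUnionOfCosets StabilityHolds)

/-- (1) For `t ≥ 2` and `n ≥ 2 t + 2` there is a nonempty family `A` in `S_n` whose indicator is in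
`U_t` such that every union `C` of `t`-cosets satisfies `|A Δ C| ≥ (1 - (4 t + 4) / (n + 1)) |A|`.
(2) The stability statement fails for every real constant `C₀`, every `t ≥ 2` and every
`n > 2 |C₀| + 4 t + 4`.
(3) For every `t ≥ 2`, every `η < 1` and all large `n`: whatever `ε > 0` is, some family `A`
satisfies the hypothesis of the question, and `|A Δ C| ≥ η |A|` for all unions `C` of `t`-cosets.
(4) There is no absolute constant as asked for in the question; there is none for any
fixed `t ≥ 2`. -/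
theorem result :
    (∀ t n : ℕ, 2 ≤ t → 2 * t + 2 ≤ n → ∃ A : Finset (Perm (Fin n)), A.Nonempty ∧ ind A ∈ U n t ∧
      ∀ C : Finset (Perm (Fin n)), IsUnionOfCosets t C →
        (1 - (4 * (t : ℝ) + 4) / ((n : ℝ) + 1)) * A.card ≤ ((symmDiff A C).card : ℝ)) ∧
    (∀ (C₀ : ℝ) (t n : ℕ), 2 ≤ t → 2 * |C₀| + 4 * (t : ℝ) + 4 < n → ¬ StabilityHolds C₀ t n) ∧
    (∀ (t : ℕ) (η : ℝ), 2 ≤ t → η < 1 → ∃ n₀ : ℕ, ∀ n : ℕ, n₀ ≤ n →
      ∃ A : Finset (Perm (Fin n)), A.Nonempty ∧
        (∀ ε : ℝ, 0 < ε → ∃ ft : Perm (Fin n) → ℝ, IsProj t (ind A) ft ∧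
          expect (fun σ => (ind A σ - ft σ) ^ 2) ≤ ε * expect (ind A)) ∧
        ∀ C : Finset (Perm (Fin n)), IsUnionOfCosets t C →
          η * A.card ≤ ((symmDiff A C).card : ℝ)) ∧
    (¬ ∃ C₀ : ℝ, ∀ t n : ℕ, StabilityHolds C₀ t n) ∧
    (∀ t : ℕ, 2 ≤ t → ¬ ∃ C₀ : ℝ, ∀ n : ℕ, StabilityHolds C₀ t n) := by
  classical
  have h1 : ∀ t n : ℕ, 2 ≤ t → 2 * t + 2 ≤ n → ∃ A : Finset (Perm (Fin n)), A.Nonempty ∧
      ind A ∈ U n t ∧ ∀ C : Finset (Perm (Fin n)), IsUnionOfCosets t C →
        (1 - (4 * (t : ℝ) + 4) / ((n : ℝ) + 1)) * A.card ≤ ((symmDiff A C).card : ℝ) := by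
    intro t n ht hn
    set m := n / 2 with hm
    refine ⟨Pool.Agent.Y906.SD.Fm n m t, Pool.Agent.Y906.SD.Fm_nonempty ht (by omega),
      Pool.Agent.Y906.SD.ind_Fm_mem ht (by omega), ?_⟩
    intro C hC
    set A := Pool.Agent.Y906.SD.Fm n m t with hA
    have hleak := Pool.Agent.Y906.SD.leak_Fm (n := n) (m := m) ht (by omega) (by omega) C hC
    rw [← hA] at hleak
    have hleak' : ((C ∩ A).card : ℝ) * ((m : ℝ) - (2 * t + 1)) ≤ (C \ A).card * ((n : ℝ) - m) := by
      have e1 : (((C ∩ A).card * (m - (2 * t + 1)) : ℕ) : ℝ) ≤ (((C \ A).card * (n - m) : ℕ) : ℝ) := by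
        exact_mod_cast hleak
      push_cast at e1
      have e2 : (m : ℝ) - (2 * t + 1) ≤ ((m - (2 * t + 1) : ℕ) : ℝ) := by
        have : m ≤ (m - (2 * t + 1)) + (2 * t + 1) := by omega
        have h : ((m : ℕ) : ℝ) ≤ (((m - (2 * t + 1)) + (2 * t + 1) : ℕ) : ℝ) := by exact_mod_cast this
        push_cast at h
        linarith
      have e3 : ((n - m : ℕ) : ℝ) = (n : ℝ) - m := by
        rw [Nat.cast_sub (by omega)]
      have e4 : (0 : ℝ) ≤ ((C ∩ A).card : ℝ) := Nat.cast_nonneg _
      rw [e3] at e1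
      exact (mul_le_mul_of_nonneg_left e2 e4).trans e1
    have hsd : (symmDiff A C).card = (A \ C).card + (C \ A).card := by
      have : symmDiff A C = (A \ C) ∪ (C \ A) := rfl
      rw [this, card_union_of_disjoint]
      exact disjoint_sdiff_sdiff
    have hAc : A.card = (A \ C).card + (C ∩ A).card := by
      rw [inter_comm, card_sdiff_add_card_inter]
    rw [hsd, hAc]
    push_cast
    set a : ℝ := ((A \ C).card : ℝ) with ha
    set b : ℝ := ((C ∩ A).card : ℝ) with hb
    set c : ℝ := ((C \ A).card : ℝ) with hc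
    have ha0 : 0 ≤ a := Nat.cast_nonneg _
    have hb0 : 0 ≤ b := Nat.cast_nonneg _
    set κ : ℝ := 1 - (4 * (t : ℝ) + 4) / ((n : ℝ) + 1) with hκ
    have hnr : (0 : ℝ) < (n : ℝ) + 1 := by positivity
    have ht0 : (0 : ℝ) ≤ t := Nat.cast_nonneg _
    have hκ1 : κ ≤ 1 := by
      have : 0 ≤ (4 * (t : ℝ) + 4) / ((n : ℝ) + 1) := by positivity
      linarith
    have hκn : κ * ((n : ℝ) + 1) = (n : ℝ) + 1 - (4 * t + 4) := by
      rw [hκ]
      field_simp
    have hN : (0 : ℝ) < (n : ℝ) - m := by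
      have : m < n := by omega
      have h : (m : ℝ) < n := by exact_mod_cast this
      linarith
    have hκN : κ * ((n : ℝ) - m) ≤ (m : ℝ) - (2 * t + 1) := by
      have hm1 : (t : ℝ) + 1 ≤ m := by
        have : t + 1 ≤ m := by omega
        exact_mod_cast this
      have key : κ * ((n : ℝ) + 1) * ((n : ℝ) - m) ≤ ((m : ℝ) - (2 * t + 1)) * ((n : ℝ) + 1) := by
        rw [hκn]
        rcases Nat.even_or_odd n with he | ho
        · have : n = 2 * m := by
            obtain ⟨k, hk⟩ := he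
            omega
          have h : (n : ℝ) = 2 * m := by exact_mod_cast this
          rw [h]
          nlinarith
        · have : n = 2 * m + 1 := by
            obtain ⟨k, hk⟩ := ho
            omega
          have h : (n : ℝ) = 2 * m + 1 := by exact_mod_cast this
          rw [h]
          nlinarith
      have key2 : (κ * ((n : ℝ) - m)) * ((n : ℝ) + 1) ≤ ((m : ℝ) - (2 * t + 1)) * ((n : ℝ) + 1) := by
        linarith [key, (by ring : κ * ((n : ℝ) + 1) * ((n : ℝ) - m) =
          (κ * ((n : ℝ) - m)) * ((n : ℝ) + 1))]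
      exact le_of_mul_le_mul_right key2 hnr
    have hbc : κ * b ≤ c := by
      have e1 : (κ * b) * ((n : ℝ) - m) ≤ c * ((n : ℝ) - m) := by
        calc (κ * b) * ((n : ℝ) - m) = b * (κ * ((n : ℝ) - m)) := by ring
          _ ≤ b * ((m : ℝ) - (2 * t + 1)) := mul_le_mul_of_nonneg_left hκN hb0
          _ ≤ _ := hleak'
      exact le_of_mul_le_mul_right e1 hN
    have hκa : κ * a ≤ a := by nlinarith
    linarith
  have h2 : ∀ (C₀ : ℝ) (t n : ℕ), 2 ≤ t → 2 * |C₀| + 4 * (t : ℝ) + 4 < n →
      ¬ StabilityHolds C₀ t n := by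
    intro C₀ t n ht hn hS
    have hC0 : 0 ≤ |C₀| := abs_nonneg _
    have ht0 : (0 : ℝ) ≤ t := Nat.cast_nonneg _
    have hn' : 2 * t + 2 ≤ n := by
      have : ((2 * t + 2 : ℕ) : ℝ) ≤ n := by push_cast; linarith
      exact_mod_cast this
    have hn0 : (0 : ℝ) < n := by linarith
    obtain ⟨A, hA, hU, hdist⟩ := h1 t n ht hn'
    have hproj : IsProj t (ind A) (ind A) := ⟨hU, fun h _ => by simp [expect]⟩
    have hexp : expect (fun σ => (ind A σ - ind A σ) ^ 2) ≤ (1 / (n : ℝ)) * expect (ind A) := by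
      have e1 : expect (fun σ => (ind A σ - ind A σ) ^ 2) = 0 := by simp [expect]
      rw [e1]
      have e2 : 0 ≤ expect (ind A) := by
        unfold expect
        apply mul_nonneg (by positivity)
        apply Finset.sum_nonneg
        intro σ _
        unfold ind
        split_ifs <;> norm_num
      positivity
    obtain ⟨C, hC, hle⟩ := hS (1 / n) (by positivity) A (ind A) hproj hexp
    have h3 := hdist C hC
    have hAc : (0 : ℝ) < A.card := by exact_mod_cast hA.card_pos
    have h4 : (1 - (4 * (t : ℝ) + 4) / ((n : ℝ) + 1)) * A.card ≤ C₀ * (1 / n + 1 / n) * A.card :=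
      h3.trans hle
    have h5 : 1 - (4 * (t : ℝ) + 4) / ((n : ℝ) + 1) ≤ C₀ * (1 / n + 1 / n) :=
      le_of_mul_le_mul_right h4 hAc
    have h6 : C₀ * (1 / (n : ℝ) + 1 / n) ≤ 2 * |C₀| / n := by
      have : C₀ ≤ |C₀| := le_abs_self _
      calc C₀ * (1 / (n : ℝ) + 1 / n) ≤ |C₀| * (1 / (n : ℝ) + 1 / n) :=
            mul_le_mul_of_nonneg_right this (by positivity)
        _ = 2 * |C₀| / n := by ring
    have h7 : (4 * (t : ℝ) + 4) / ((n : ℝ) + 1) ≤ (4 * (t : ℝ) + 4) / n := by
      apply div_le_div_of_nonneg_left (by positivity) hn0 (by linarith)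
    have h8 : 1 ≤ (2 * |C₀| + 4 * t + 4) / n := by
      have : (2 * |C₀| + 4 * t + 4) / (n : ℝ) = 2 * |C₀| / n + (4 * t + 4) / n := by ring
      rw [this]
      linarith
    rw [le_div_iff₀ hn0] at h8
    linarith
  refine ⟨h1, h2, ?_, ?_, ?_⟩
  · intro t η ht hη
    obtain ⟨n₁, hn₁⟩ := exists_nat_gt ((4 * (t : ℝ) + 4) / (1 - η))
    refine ⟨max n₁ (2 * t + 2), fun n hn => ?_⟩
    have hnn : n₁ ≤ n := (le_max_left _ _).trans hn
    obtain ⟨A, hA, hU, hdist⟩ := h1 t n ht ((le_max_right _ _).trans hn)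
    refine ⟨A, hA, fun ε hε => ⟨ind A, ⟨hU, fun h _ => by simp [expect]⟩, ?_⟩, fun C hC => ?_⟩
    · have e1 : expect (fun σ => (ind A σ - ind A σ) ^ 2) = 0 := by simp [expect]
      rw [e1]
      have e2 : 0 ≤ expect (ind A) := by
        unfold expect
        apply mul_nonneg (by positivity)
        apply Finset.sum_nonneg
        intro σ _
        unfold ind
        split_ifs <;> norm_num
      positivity
    · refine le_trans ?_ (hdist C hC)
      apply mul_le_mul_of_nonneg_right _ (Nat.cast_nonneg _)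
      have hη0 : 0 < 1 - η := by linarith
      have h3 : (n₁ : ℝ) ≤ n := by exact_mod_cast hnn
      rw [div_lt_iff₀ hη0] at hn₁
      have h4 : (4 * (t : ℝ) + 4) / ((n : ℝ) + 1) ≤ 1 - η := by
        rw [div_le_iff₀ (by positivity)]
        nlinarith
      linarith
  · rintro ⟨C₀, h⟩
    obtain ⟨n, hn⟩ := exists_nat_gt (2 * |C₀| + 4 * ((2 : ℕ) : ℝ) + 4)
    exact h2 C₀ 2 n le_rfl hn (h 2 n)
  · rintro t ht ⟨C₀, h⟩
    obtain ⟨n, hn⟩ := exists_nat_gt (2 * |C₀| + 4 * (t : ℝ) + 4)
    exact h2 C₀ t n ht hn (h n)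

end Pool.Agent.Results.MP_e70d00_co.EveryDegree
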